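import Mathlib
import Pool.Agent.helper97.Tiling.Ladder4

/-! # MP_885f6d_mp: every polygonal tiling, in the literal sense of the problem

For every coloured polygonal tiling `T` of the plane, without any finiteness assumption, there is a
polygonal tiling `T'` which is MLD to `T` and whose Laplacian has no locally supported
eigenfunction, in every reading of sharing an edge.

Every tile is cut into three sectors by rays from an interior point. In each sector there are an
outer cell `U`, two triangles `O1`, `O2` and an infinite ladder of triangles `a 0, b 0, a 1, b 1, …`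
which converge to a segment that is covered by the triangle `O1` of the previous sector. The
neighbours of `a (n + 1)` are `a n`, `a (n + 2)`, `b (n + 1)`, those of `b (n + 1)` are `b n`,
`b (n + 2)`, `a (n + 1)`, those of `a 0` are `a 1`, `b 0`, `O1`, those of `b 0` are `b 1`, `a 0`, `O2`,
and those of `O2` are `b 0`, `O1`, `U`. So a finitely supported eigenfunction vanishes on the ladder,
then on `O1`, `O2` and on `U`. The colours of the cells record the tile they come from. -/

namespace Pool.Agent.Results.MP_885f6d_mp.AllTilings

open Pool.Agent.helper97.Tiling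

/-- `adj` is a reading of sharing an edge for the tiles of `T`: tiles with a common full edge are
adjacent, and adjacent tiles are distinct and have more than one point in common. -/
def AdjacencyNotion {C : Type} (T : Set (Tile C)) (adj : Tile C → Tile C → Prop) : Prop :=
  ∀ s ∈ T, ∀ t ∈ T, (Adjacent s t → adj s t) ∧ (adj s t → s ≠ t ∧ (s.1 ∩ t.1).Nontrivial)

/-- There is a nonzero finitely supported `ψ` which satisfies the eigenvalue equation, for the
adjacency `adj` and some complex number `E`, at every tile with finitely many neighbours. -/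
def HasWeakEigenfunction {C : Type} (T : Set (Tile C)) (adj : Tile C → Tile C → Prop) : Prop :=
  ∃ ψ : T → ℂ, ψ ≠ 0 ∧ (Function.support ψ).Finite ∧ ∃ E : ℂ, ∀ v : T,
    {u : T | adj u.1 v.1}.Finite → ∑ᶠ (u : T) (_ : adj u.1 v.1), (ψ v - ψ u) = E * ψ v

/-- Every polygonal tiling has in its MLD class a polygonal tiling whose Laplacian has no locally
supported eigenfunction, whatever the reading of sharing an edge. -/
theorem result (C : Type) (T : Set (Tile C)) (hT : IsPolygonalTiling T) :
    ∃ (C' : Type) (T' : Set (Tile C')), IsPolygonalTiling T' ∧ MLD T T' ∧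
      ¬ HasLocallySupportedEigenfunction T' ∧
      ∀ adj : Tile C' → Tile C' → Prop, AdjacencyNotion T' adj → ¬ HasWeakEigenfunction T' adj := by
  have key : ∀ adj, AdjacencyNotion (ladderT T) adj → ¬ HasWeakEigenfunction (ladderT T) adj := by
    rintro adj hadj ⟨ψ, hψ, hfin, E, hE⟩
    exact hψ (psi_zero hT adj hadj E ψ hE hfin)
  refine ⟨LC C, ladderT T, isPolygonalTiling_ladder hT, mld_ladder hT, ?_, key⟩
  rintro ⟨ψ, hψ, hfin, E, hE⟩
  refine key Adjacent ?_ ⟨ψ, hψ, hfin, E, fun v _ => hE v⟩
  intro s _ t _
  refine ⟨id, fun h => ⟨h.1, ?_⟩⟩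
  obtain ⟨-, e, ⟨he, a, b, -, -, h1⟩, ⟨-, a', b', -, -, h2⟩⟩ := h
  refine he.mono (Set.subset_inter ?_ ?_)
  · rw [h1]; exact fun x hx => hx.1
  · rw [h2]; exact fun x hx => hx.1

end Pool.Agent.Results.MP_885f6d_mp.AllTilings
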