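import Mathlib
import Pool.Agent.helper97.Tiling.Final

/-! # MP_885f6d_mp: tilings without locally supported eigenfunctions in an MLD class

Let `T` be a coloured polygonal tiling of the plane which has finite local complexity or, more
generally, from which a relatively dense point set of finite type is locally derivable. Then the MLD
class of `T` contains a locally finite, edge-to-edge polygonal tiling `T'` whose induced graph is the
square lattice graph, and the Laplacian of this graph has no locally supported eigenfunction.

Idea of the proof. Let `X` be a locally derivable point set of finite type and let `D` be the finite
set of its short differences. The group generated by `D` is free of finite rank, so by Dirichlet's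
theorem there are a large number `N` and a homomorphism `h` from this group to the lattice `ℤ × ℤ`
with `h d` very close to `N d` for all `d ∈ D`. Along chains of short steps one sees that
`x ↦ h (x - x₀)` is injective on `X` and that it distorts distances very little. Correcting at every
lattice point `z` by a rule which only uses the pattern of lattice points near `z` that come from
`X`, one obtains points `F z` of the plane such that `N F` is a perturbation of the identity with
almost orthonormal steps, and such that `F` is determined locally. The quadrilaterals with corners
`F z`, `F (z + e₁)`, `F (z + e₂)`, `F (z + e₁ + e₂)`, coloured by the patch of `T` which they meet,
form the tiling `T'`. On the square lattice graph a finitely supported eigenfunction vanishes, by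
looking at the right neighbour of the lexicographically last point of the support. -/

namespace Pool.Agent.Results.MP_885f6d_mp.SquareGridMLD

open Pool.Agent.helper97.Tiling

/-- Every polygonal tiling of finite local complexity (more generally, every polygonal tiling from
which a relatively dense point set of finite type is locally derivable) has in its MLD class a locally
finite edge-to-edge polygonal tiling whose graph is the square lattice and whose Laplacian has no
locally supported eigenfunction. -/
theorem result (C : Type) (T : Set (Tile C)) (hT : IsPolygonalTiling T)
    (h : FiniteLocalComplexity T ∨ ∃ X : Set Plane, PointsDerivable X T ∧ FiniteTypeDense X) :
    GoodMLD T := by
  rcases h with h | ⟨X, h1, h2⟩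
  · obtain ⟨X, h1, h2⟩ := points_of_flc hT h
    exact goodMLD_of_points h1 h2
  · exact goodMLD_of_points h1 h2

end Pool.Agent.Results.MP_885f6d_mp.SquareGridMLD
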